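import Pool.Agent.Helper89.OS.Asm2
import Pool.Agent.Helper58.OS.M_IDP
import Pool.Agent.Helper24.OS.M_JTU
import Pool.Agent.Helper90.OS.M_AUT
import Pool.Agent.Helper36.OS.M_PRM
import Pool.Agent.Helper53.OS.M_XD
import Pool.Agent.Helper73.OS.M_LDV
import Pool.Agent.Helper48.OS.M_NSD
import Pool.Agent.Helper75.OS.M_YYZ
import Pool.Agent.Helper19.OS.M_GRP
import Pool.Agent.Helper33.OS.M_ENT
import Pool.Agent.Helper28.OS.M_XA
import Pool.Agent.Helper54.OS.M_XB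
import Pool.Agent.Helper30.OS.M_XC
import Pool.Agent.Helper13.OS.M_XE
import Pool.Agent.Helper66.OS.M_PID
import Pool.Agent.Helper81.OS.M_CGR
import Pool.Agent.Helper76.OS.M_ISO
import Pool.Agent.Helper34.OS.M_BLK
import Pool.Agent.Helper91.OS.M_AMG
import Pool.Agent.Helper16.OS.M_TWA
import Pool.Agent.Helper29.OS.M_TWB
import Pool.Agent.Helper39.OS.M_MZZ
import Pool.Agent.Helper8.OS.M_HEC
import Pool.Agent.Helper47.OS.M_STL
import Pool.Agent.Helper79.OS.M_DRE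
import Pool.Agent.Helper45.OS.M_TSU
import Pool.Agent.Helper82.OS.M_MUK
import Pool.Agent.Helper79.OS.M_PAR
import Pool.Agent.Helper94.OT.End

/-! # Project OS (MP_2b6189_al): all modules -/

set_option autoImplicit false

namespace Pool.Agent.Helper89.OS

open Matrix ComplexConjugate Pool.Agent.Helper94.YF Pool.Agent.Helper94.YG

theorem toPD' (I : Type) [Fintype I] [DecidableEq I] (Z : CentreData I) (p m : ℕ) (hp : p.Prime)
    (hn : Z.n = p * m) (hpm : ¬ p ∣ m) (hodd : Odd Z.n) :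
    ∃ (a : ℕ) (b : ZMod Z.L) (X : PD I p a), Idp Z.L p a b ∧ (p ^ 2 ∣ Z.L → 2 ≤ a) ∧
      X.o = Z.o ∧ X.st = Z.st ∧ X.d = Z.d ∧ X.m = m ∧ X.kap = Z.kap ∧ X.th = Z.th ∧
      X.t = Z.tw b ∧ (X.s = fun i k => (p : ℂ) * Z.rho (s2 b) i k) ∧ X.chi = Cchi Z ∧
      X.N = Z.N ∧ (∀ i, (X.z i : ℂ) = (m : ℂ) * Z.rho (s2 (1 - b)) i Z.o) :=
  toPD Helper58.OS.hIDP Helper24.OS.hJTU Helper90.OS.hAUT Helper36.OS.hPRM Helper53.OS.hXD
    Helper73.OS.hLDV Helper48.OS.hNSD Helper75.OS.hYYZ Helper19.OS.hGRP Helper33.OS.hENT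
    Helper28.OS.hXA Helper54.OS.hXB Helper30.OS.hXC Helper13.OS.hXE
    Helper88.YF.hDUA Helper36.YF.hFUS Helper95.YF.hINT Helper2.YF.hNRM hRAT'
    I Z p m hp hn hpm hodd

/-- `n` odd, the prime `p` divides `n` exactly once, and `p - 1` is a power of `2` or `p ^ 2 ∣ L`. -/
theorem oddFermat (I : Type) [Fintype I] [DecidableEq I] (Z : CentreData I) (p m : ℕ) (hp : p.Prime)
    (hn : Z.n = p * m) (hpm : ¬ p ∣ m) (hodd : Odd Z.n)
    (h : (∃ e : ℕ, p = 2 ^ e + 1) ∨ p ^ 2 ∣ Z.L) :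
    ∃ x : I, x ≠ Z.o ∧ Z.d x = 1 ∧ Z.th x = 1 := by
  obtain ⟨a, b, X, -, h2, ho, -, hd, -, -, hth, -, -, -, -, -⟩ := toPD' I Z p m hp hn hpm hodd
  have key : ∃ k, k ≠ X.o ∧ X.d k = 1 ∧ X.th k = 1 := by
    by_cases ha : 2 ≤ a
    · exact Helper29.OS.hTWB Helper16.OS.hTWA Helper34.OS.hBLK Helper91.OS.hAMG hRAT'
        Helper81.OS.hCGR Helper76.OS.hISO Helper66.OS.hPID I p a X ha
    · have h1 : a = 1 := by
        have := X.a_pos
        omega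
      subst h1
      have hf : ∃ e : ℕ, p = 2 ^ e + 1 := by
        rcases h with h | h
        · exact h
        · exact absurd (h2 h) ha
      obtain ⟨Q, hQ⟩ := Helper66.OS.hPID hRAT' p hp
      have hM := Helper39.OS.hMZZ I p X
      have hB : Blk X Q := Helper34.OS.hBLK hRAT' Helper81.OS.hCGR Helper76.OS.hISO I p 1 X Q hQ
        hM.2.2.2.2.2.2
      exact Helper94.OT.hFER Helper79.OS.hPAR Helper39.OS.hMZZ Helper79.OS.hDRE Helper45.OS.hTSU
        Helper82.OS.hMUK Helper47.OS.hSTL Helper8.OS.hHEC Helper91.OS.hAMG hRAT' I p X Q hB hf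
  obtain ⟨k, hk1, hk2, hk3⟩ := key
  rw [ho] at hk1
  rw [hd] at hk2
  rw [hth] at hk3
  exact ⟨k, hk1, hk2, hk3⟩

end Pool.Agent.Helper89.OS
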