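import Pool.Agent.Helper89.OS.St2

/-! # Project OS (MP_2b6189_al): from the centre to the `p`-local data -/

set_option autoImplicit false

namespace Pool.Agent.Helper89.OS

open Matrix ComplexConjugate Pool.Agent.Helper94.YF Pool.Agent.Helper94.YG

/-- Every odd prime `p` dividing `n = p m` exactly once (`n` odd) gives `p`-local data. -/
theorem toPD (hIDP : StIDP) (hJTU : StJTU) (hAUT : StAUT) (hPRM : StPRM) (hXD : StXD)
    (hLDV : StLDV) (hNSD : StNSD) (hYYZ : StYYZ) (hGRP : StGRP) (hENT : StENT) (hXA : StXA)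
    (hXB : StXB) (hXC : StXC) (hXE : StXE)
    (hDUA : StDUA) (hFUS : StFUS) (hINT : StINT) (hNRM : StNRM) (hRAT : StRAT)
    (I : Type) [Fintype I] [DecidableEq I] (Z : CentreData I) (p m : ℕ) (hp : p.Prime)
    (hn : Z.n = p * m) (hpm : ¬ p ∣ m) (hodd : Odd Z.n) :
    ∃ (a : ℕ) (b : ZMod Z.L) (X : PD I p a), Idp Z.L p a b ∧ (p ^ 2 ∣ Z.L → 2 ≤ a) ∧
      X.o = Z.o ∧ X.st = Z.st ∧ X.d = Z.d ∧ X.m = m ∧ X.kap = Z.kap ∧ X.th = Z.th ∧
      X.t = Z.tw b ∧ (X.s = fun i k => (p : ℂ) * Z.rho (s2 b) i k) ∧ X.chi = Cchi Z ∧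
      X.N = Z.N ∧ (∀ i, (X.z i : ℂ) = (m : ℂ) * Z.rho (s2 (1 - b)) i Z.o) := by
  obtain ⟨a, b, hI, ha1, ha2⟩ := hIDP Z.L p Z.L_pos hp
  have hpL : p ∣ Z.L := Z.cauchy p hp (by rw [hn]; exact dvd_mul_right p m)
  have ha : 1 ≤ a := ha1 hpL
  obtain ⟨y, z, hy, hz⟩ := hYYZ hFUS hDUA hINT hRAT I Z p a m b hp ha hI hn hpm
  obtain ⟨j, tu, hj, htu, htum⟩ := hJTU Z.L p a b hp hI
  choose Pi hPi using hPRM hAUT hDUA hFUS I Z.toCentreRep
  have hpo : Odd p := by rw [hn] at hodd; exact (Nat.odd_mul.1 hodd).1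
  have hmo : Odd m := by rw [hn] at hodd; exact (Nat.odd_mul.1 hodd).2
  have hC : Cx Z p a m b j tu Pi y z := ⟨hp, hpo, hmo, ha, hpm, hn, hI, hj, htu, htum, hPi, hy, hz⟩
  obtain ⟨a1, a2, a3, a4, a5, a6, a7, a8, a9, a10⟩ :=
    hXA hFUS hDUA hNRM hRAT hGRP hENT I Z p a m b j tu Pi y z hC
  obtain ⟨b1, b2, b3, b4, b5⟩ := hXB hFUS hDUA hGRP hENT I Z p a m b j tu Pi y z hC
  obtain ⟨c1, c2, c3, c4, c5, c6, c7, c8, c9, c10, c11, c12⟩ :=
    hXC hFUS hDUA hAUT hGRP hENT I Z p a m b j tu Pi y z hC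
  obtain ⟨e1, e2, e3, e4, e5, e6, e7⟩ := hXE hFUS hDUA hGRP hENT I Z p a m b j tu Pi y z hC
  obtain ⟨d1, d2, d3, -⟩ := hDUA I Z.toCentreRep
  have hp0 : (p : ℂ) ≠ 0 := by exact_mod_cast hp.ne_zero
  let X : PD I p a :=
    { o := Z.o, st := Z.st, d := Z.d, m := m, kap := Z.kap, th := Z.th, t := Z.tw b
      s := fun i k => (p : ℂ) * Z.rho (s2 b) i k, y := y, z := z, chi := Cchi Z, N := Z.N
      pi := fun c => Pi (tu c)
      prime := hp, p_odd := hpo, m_odd := hmo, a_pos := ha, cop := hpm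
      st_st := d1, st_o := d2
      nsd := fun i hi => hNSD hLDV hXD hIDP hFUS hDUA hINT hRAT I Z hodd i hi
      d_st := d3, t_st := a2, y_st := a1, d_pos := Z.d_pos, d_o := Z.d_o, d_dvd := a8
      t_pow := a3, t_o := a4, th_of := a5, kap_o := Z.kap_o, kap_t := a6, kap_y := a7
      s_symm := b1, s_o := fun i => (hy i).symm, s_int := b2, s_uni := b3, sd := b4, sz := b5
      z_t := a10, z_dvd := a9
      pi_one := c1, pi_mul := c2, pi_o := c3, pi_d := c4, pi_y := c5, pi_z := c6, pi_t := c7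
      pi_s := fun c i k => by simp only [c8 c i k]
      conj_s := fun i k => by
        simp only [map_mul, c9 i k, Complex.conj_natCast]
      gal := fun σ => by
        obtain ⟨c, hc⟩ := c10 σ
        exact ⟨c, fun i k => by simp only [map_mul, map_natCast, hc i k]⟩
      weil0 := fun i k => by
        have h1 : ∑ l, (p : ℂ) * Z.rho (s2 b) i l * ((p : ℂ) * Z.rho (s2 b) l k) =
            (p : ℂ) ^ 2 * ∑ l, Z.rho (s2 b) i l * Z.rho (s2 b) l k := by
          rw [Finset.mul_sum]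
          exact Finset.sum_congr rfl fun l _ => by ring
        rw [h1, c11 i k]
        split_ifs <;> ring
      weil := fun w i k => by
        have h1 : ∑ l, Z.tw b l ^ (w : ZMod (p ^ a)).val * ((p : ℂ) * Z.rho (s2 b) i l *
            ((p : ℂ) * Z.rho (s2 b) l k)) = (p : ℂ) ^ 2 * ∑ l,
            Z.tw b l ^ (w : ZMod (p ^ a)).val * (Z.rho (s2 b) i l * Z.rho (s2 b) l k) := by
          rw [Finset.mul_sum]
          exact Finset.sum_congr rfl fun l _ => by ring
        rw [h1, c12 w i k]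
        ring
      ex := by
        obtain ⟨k, hk1, hk2⟩ := hXD hFUS hDUA I Z.toCentreRep p a b hp ha hI
        refine ⟨k, ?_, hk2⟩
        intro h0
        apply hk1
        have := hy k
        rw [h0] at this
        push_cast at this
        rcases mul_eq_zero.1 this.symm with h | h
        · exact absurd h hp0
        · exact h
      chi_int := e1, chi_o := e2, o_chi := e3, chi_mul := e4, con := e5, nhat := e6, tor := e7 }
  exact ⟨a, b, X, hI, ha2, rfl, rfl, rfl, rfl, rfl, rfl, rfl, rfl, rfl, rfl, hz⟩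

end Pool.Agent.Helper89.OS
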