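import Pool.Agent.Helper94.YG.All

/-!
# Project OS (MP_2b6189_al): integral fusion categories of odd dimension.  Definitions

`CentreRep`, `CentreData` (helper94): the data of the Drinfeld centre of an integral fusion category.
-/

set_option autoImplicit false

namespace Pool.Agent.Helper89.OS

open Matrix ComplexConjugate Pool.Agent.Helper94.YF Pool.Agent.Helper94.YG

/-- The conclusion: a simple object different from the unit, of dimension `1` and twist `1`. -/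
def Goal2 {I : Type} [Fintype I] [DecidableEq I] (Z : CentreData I) : Prop :=
  ∃ x : I, x ≠ Z.o ∧ Z.d x = 1 ∧ Z.th x = 1

/-- `b` is the idempotent of `Z/L` which is `1` modulo `p ^ a` and `0` modulo `L' = L / p ^ a`, `L'` prime to `p`. -/
structure Idp (L p a : ℕ) (b : ZMod L) : Prop where
  idem : b * b = b
  ann : ((p ^ a : ℕ) : ZMod L) * b = 0
  ex : ∃ L' : ℕ, L = p ^ a * L' ∧ ¬ p ∣ L' ∧ (L' : ZMod L) * (1 - b) = 0

/-- The `p`-local data of `Z(C)`, `p` an odd prime dividing `n = p m` exactly once.  In terms of the representation `rho` of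
`SL(2, Z/L)`: `s = p rho(s2 b)` (`b` the idempotent, so `s2 b` is the `p`-part of `Sm`), `y i = s i o`, `z i = m rho(s2 (1-b)) i o`,
`t i = th i ^ b` (the `p`-part of the twist), `chi j k = rho(Sm) k j / rho(Sm) o j` (the characters of the fusion ring),
`pi c`: the permutation given by `rho(D(c))`, `c` a unit modulo `p ^ a` (`1` modulo `L'`). -/
structure PD (I : Type) [Fintype I] [DecidableEq I] (p a : ℕ) where
  o : I
  st : I → I
  d : I → ℕ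
  m : ℕ
  kap : I → ℕ
  th : I → ℂ
  t : I → ℂ
  s : I → I → ℂ
  y : I → ℤ
  z : I → ℤ
  chi : I → I → ℂ
  N : I → I → I → ℕ
  pi : (ZMod (p ^ a))ˣ → I → I
  prime : p.Prime
  p_odd : Odd p
  m_odd : Odd m
  a_pos : 1 ≤ a
  cop : ¬ p ∣ m
  -- duality
  st_st : ∀ i, st (st i) = i
  st_o : st o = o
  nsd : ∀ i, st i = i → i = o
  d_st : ∀ i, d (st i) = d i
  t_st : ∀ i, t (st i) = t i
  y_st : ∀ i, y (st i) = y i
  -- dimensions, twists
  d_pos : ∀ i, 0 < d i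
  d_o : d o = 1
  d_dvd : ∀ i, d i ∣ p * m
  t_pow : ∀ i, t i ^ (p ^ a) = 1
  t_o : t o = 1
  th_of : ∀ i, y i ≠ 0 → t i = 1 → th i = 1
  -- the Lagrangian algebra
  kap_o : kap o = 1
  kap_t : ∀ i, kap i ≠ 0 → t i = 1
  kap_y : ∑ i, y i * (kap i : ℤ) = p
  -- the matrix s
  s_symm : ∀ i j, s i j = s j i
  s_o : ∀ i, s i o = y i
  s_int : ∀ i j, IsIntegral ℤ (s i j)
  s_uni : ∀ i j, ∑ k, s i k * conj (s j k) = if i = j then (p : ℂ) ^ 2 else 0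
  sd : ∀ i, ∑ j, s i j * (d j : ℂ) = (p : ℂ) ^ 2 * z i
  sz : ∀ i, ∑ j, s i j * (z j : ℂ) = d i
  z_t : ∀ i, z i ≠ 0 → t i = 1
  z_dvd : ∀ i, (d i : ℤ) ∣ p * z i
  -- the torus
  pi_one : ∀ i, pi 1 i = i
  pi_mul : ∀ c c' i, pi (c * c') i = pi c (pi c' i)
  pi_o : ∀ c, pi c o = o
  pi_d : ∀ c i, d (pi c i) = d i
  pi_y : ∀ c i, y (pi c i) = y i
  pi_z : ∀ c i, z (pi c i) = z i
  pi_t : ∀ c i, t (pi c i) = t i ^ ((c : ZMod (p ^ a)) ^ 2).val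
  pi_s : ∀ c i j, s (pi c i) j = s i (pi c j)
  conj_s : ∀ i j, conj (s i j) = s i (pi (-1) j)
  gal : ∀ σ : ℂ ≃+* ℂ, ∃ c, ∀ i j, σ (s i j) = s i (pi c j)
  weil0 : ∀ i j, ∑ k, s i k * s k j = if i = pi (-1) j then (p : ℂ) ^ 2 else 0
  weil : ∀ (w : (ZMod (p ^ a))ˣ) (i j : I), ∑ k, t k ^ (w : ZMod (p ^ a)).val * (s i k * s k j) =
    (p : ℂ) * (t i ^ (-((w⁻¹ : (ZMod (p ^ a))ˣ) : ZMod (p ^ a))).val *
      t j ^ (-((w⁻¹ : (ZMod (p ^ a))ˣ) : ZMod (p ^ a))).val) * s i (pi w⁻¹ j)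
  ex : ∃ k, y k ≠ 0 ∧ t k ^ (p ^ (a - 1)) ≠ 1
  -- the fusion ring
  chi_int : ∀ j k, IsIntegral ℤ (chi j k)
  chi_o : ∀ j, chi j o = 1
  o_chi : ∀ k, chi o k = d k
  chi_mul : ∀ j k l, chi j k * chi j l = ∑ v, (N k l v : ℂ) * chi j v
  con : ∃ w : I → I → ℂ, (∀ i k, IsIntegral ℤ (w i k)) ∧
    ∀ i j, (m : ℂ) ^ 2 * s j i = (d j : ℂ) * ∑ k, w i k * chi j k
  nhat : ∀ k i i', IsIntegral ℤ ((m : ℂ) ^ 2 / (p : ℂ) ^ 2 * ∑ j, conj (s j i) * chi j k * s j i')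
  tor : ∀ E : I → ℂ, (∀ i, ∑ k, s i k * E k = (p : ℂ) * E i) → (∀ k, E k ≠ 0 → t k = 1) →
    ∀ j, t j ≠ 1 → ∑ k, E k * chi j k = 0

end Pool.Agent.Helper89.OS
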