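import Pool.Agent.Helper89.OS.Defs

/-!
# Project OS (MP_2b6189_al), part 1: from the centre to the `p`-local data `PD`

Every module proves `theorem hXXX : ... → StXXX`; further statements of the files `Pool.Agent.Helper94.YF.St` (`StDUA, StFUS, StINT,
StNRM, StRAT`, all proved), `St1`, `St2` may be added as hypotheses.  In the proofs `S = rho Sm`, `G c = rho (Dg c)`, and for an idempotent
`b`: `b * b = b`, `s2 b` has the matrix `(1-b, -b; b, 1-b)`.  2x2 identities in `SL L`: `Subtype.ext`, `ext i j`, `fin_cases i`, `fin_cases j`,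
`simp [...]`, then `linear_combination (...) * hb` with `hb : b * b = b`.  `L_pos` gives `NeZero Z.L`.
-/

set_option autoImplicit false

namespace Pool.Agent.Helper89.OS

open Matrix ComplexConjugate Pool.Agent.Helper94.YF Pool.Agent.Helper94.YG

/-- **OS MODULE IDP.**  The idempotent.
PROOF.  Write `L = p ^ a * L'` with `¬ p ∣ L'` (`Nat.exists_eq_pow_mul_and_not_dvd`, `L ≠ 0`, `p ≠ 1`).  Chinese remainder theorem
(`Nat.chineseRemainder`, `p ^ a` and `L'` coprime): a natural `k ≡ 1 mod p ^ a`, `k ≡ 0 mod L'`; `b = (k : ZMod L)`.  `p ^ a * b = 0` as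
`L' ∣ k`; `L' * (1 - b) = 0` as `p ^ a ∣ k - 1`; `b * b - b = k (k - 1)` is divisible by `L'` and `p ^ a`, so by `L`.  If `p ∣ L` then `a ≥ 1`,
if `p ^ 2 ∣ L` then `a ≥ 2` (`p ^ 2` divides `p ^ a L'` and is prime to `L'`). See the very similar `Pool.Agent.Helper94.YF.M_IDE`. -/
def StIDP : Prop := ∀ L p : ℕ, 0 < L → p.Prime → ∃ (a : ℕ) (b : ZMod L), Idp L p a b ∧
  (p ∣ L → 1 ≤ a) ∧ (p ^ 2 ∣ L → 2 ≤ a)

/-- **OS MODULE JTU.**  The maps `j : Z/p^a → Z/L`, `x ↦ x b` and `tu : (Z/p^a)ˣ → (Z/L)ˣ`, `w ↦ (1 - b) + w b`.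
PROOF.  `p ^ a > 0` so `NeZero (p ^ a)`.  `j x = (x.val : ZMod L) * b`.  As `((p ^ a : ℕ) : ZMod L) * b = 0`, `(k : ZMod L) * b` depends only on `k`
modulo `p ^ a` (`Nat.div_add_mod`); with `ZMod.val_add`, `ZMod.val_mul`, `b * b = b` this gives `JH` (see `M_JH` of project YF:
`Pool.Agent.Helper48.YF.M_JH`).  `b * j x = j x`, so `((1 - b) + j w) * ((1 - b) + j w') = (1 - b) + j (w w')`, and `(1 - b) + j 1 = 1`; so
`tu w` is the unit with value `(1 - b) + j w` and inverse `(1 - b) + j w⁻¹`. -/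
def StJTU : Prop := ∀ (L p a : ℕ) (b : ZMod L), p.Prime → Idp L p a b →
  ∃ (j : ZMod (p ^ a) → ZMod L) (tu : (ZMod (p ^ a))ˣ → (ZMod L)ˣ), JH L (p ^ a) b j ∧
    (∀ w, (tu w : ZMod L) = (1 - b) + j w) ∧ ∀ w w', tu (w * w') = tu w * tu w'

/-- **OS MODULE AUT.**  Every unit of `Z/L` comes from an automorphism of `ℂ`.
PROOF.  `ζ = exp (2 π i / L)` is a primitive root of order `L` (`Complex.isPrimitiveRoot_exp`).  There is an automorphism `σ` of `ℂ` with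
`σ ζ = ζ ^ c.val`: `ζ` and `ζ ^ c.val` have the same minimal polynomial over `ℚ` (`IsPrimitiveRoot.pow_of_coprime`, both are roots of the
irreducible cyclotomic polynomial: `Polynomial.cyclotomic_eq_minpoly_rat`), so there is a `ℚ`-isomorphism `ℚ(ζ) → ℚ(ζ ^ c.val) ⊆ ℂ`
(`IntermediateField.adjoin.. algHomAdjoinIntegralEquiv` / `AdjoinRoot`); it extends to an automorphism of `ℂ`:
if `F` is the extension of `ℚ` generated by a transcendence basis (see the proof of `Pool.Agent.Helper94.YF.hRAT'`: `ℂ` is an algebraic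
closure of `F`, normal and Galois over `F`), and `f` is the minimal polynomial of `ζ` over `F`: `f` divides the cyclotomic polynomial, its
coefficients are algebraic integers fixed by all automorphisms over `F`, so in `ℚ` (as in `hRAT'`), so `f` is the cyclotomic polynomial and
`ζ ^ c.val` is a root of it: some `F`-automorphism maps `ζ` to `ζ ^ c.val` (`IsConjRoot`, `isConjRoot_iff_exists_algEquiv`).
(The other known way: `exists_aut` style lemmas in `Pool/Agent/Helper62/FH/Aut.lean`.)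
Then `galois σ` gives a unit `c'`.  For `g = U 1`, `g' = U c'`: `rho (U c') i i = σ (rho (U 1) i i)`, i.e. `tw c' i = σ (th i)` (FUS).
`th i ^ L = 1` (FUS), so `th i = ζ ^ k` and `σ (th i) = th i ^ c.val`.  So `th i ^ c'.val = th i ^ c.val` for all `i`; with
`e = c'.val + (L - c.val)` (`c.val < L`): `th i ^ e = 1` for all `i`, so `L ∣ e` (`th_order`) and `c' = c` in `ZMod L`, so `c' = c` as units. -/
def StAUT : Prop := ∀ (I : Type) [Fintype I] [DecidableEq I] (Z : CentreRep I) (c : (ZMod Z.L)ˣ),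
  ∃ σ : ℂ ≃+* ℂ, ∀ g g' : SL Z.L, g' 0 0 = g 0 0 → g' 0 1 = (c : ZMod Z.L) * g 0 1 →
    (c : ZMod Z.L) * g' 1 0 = g 1 0 → g' 1 1 = g 1 1 → ∀ i j, Z.rho g' i j = σ (Z.rho g i j)

/-- **OS MODULE PRM.**  `rho (Dg c)` is a permutation matrix.
PROOF.  Let `σ` belong to `c` (AUT).  With `g = Sm`, `g' = Dg c * Sm` (matrix `(0, -c; c⁻¹, 0)`): `σ (S i j) = (G c * S) i j`, `G c = rho (Dg c)`.
Write `x j i = S i j / S o j` (`S o j = d j / n ≠ 0`, rational).  By `verlinde`: `x j i * x j k = ∑ v, N i k v * x j v`.  Fix `j` and let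
`f i = σ (x j i) = σ (S i j) / S o j`; then `f i * f k = ∑ v, N i k v * f v` (`σ` fixes naturals and rational numbers).
Claim: `f = x j'` for some `j'`.  `S` is unitary and symmetric, so `N i k v = ∑ l, S i l * S k l / S o l * conj (S v l)` (from `verlinde`, multiplied by
`conj (S v' l) / S o l` and summed over `l`).  Let `A l = ∑ v, f v * conj (S v l)`.  Then `f i * f k = ∑ l, x l i * x l k * S o l * A l`; multiply by
`conj (S k l')` and sum over `k` (`x l k * S o l = S k l`, unitarity): `f i * A l' = x l' i * A l'`.  `A ≠ 0` as `f o = 1 ≠ 0` (`f = ∑ l, A l S(.,l)`).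
So there is `l'` with `A l' ≠ 0` and `f = x l'`.
So `σ (S i j) = (S o j / S o j') * S i j'` for all `i`.  Both sides have norm: `∑ i, |σ (S i j)|^2 = 1` because `G c * S` is unitary (columns), so
`S o j = S o j'` (both positive).  So `(G c * S) i j = S i j' = S j' i`.  Hence `j ↦ j' =: π j` satisfies `(G c * S) i j = S i (π j)`, and as the left side is
`σ (S i j)` which is symmetric in `i, j`: `(G c * S) i j = S (π i) j`.  Multiply by `S⁻¹ = Sᴴ` from the right: `G c i k = ∑ j, S (π i) j * conj (S k j) = [k = π i]`. -/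
def StPRM : Prop := StAUT → StDUA → StFUS → ∀ (I : Type) [Fintype I] [DecidableEq I] (Z : CentreRep I)
  (c : (ZMod Z.L)ˣ), ∃ π : I → I, ∀ i k, Z.rho (Dg c) i k = if k = π i then 1 else 0

/-- **OS MODULE XD.**  The support of `rho (s2 b) e_o` contains an element of exact order `p ^ a`.
PROOF.  Let `h = p ^ (a-1)`, `x = (h : ZMod L) * b`, `u k = rho (s2 b) k o`.  Suppose `tw b k ^ h = 1` whenever `u k ≠ 0`.  `tw x k = tw b k ^ h` (`tw (k b) i = tw b i ^ k` by induction), so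
`rho (U x * s2 b) k o = rho (s2 b) k o` for all `k`, so `rho ((s2 b)⁻¹ * U x * s2 b) k o = [k = o]`, and `(s2 b)⁻¹ * U x * s2 b = Lo (-x)` (2x2 computation with `b * b = b`, `b * x = x`).  By FUS (3)
`rho (Lo (-x)) i k = ∑ l, N i (st k) l * [l = o] = N i (st k) o`, and the same for `rho (Lo 0) = 1`; so `rho (Lo (-x)) = 1`.  `Lo (-x) * Sm = Sm * U x`, so `rho (U x) = 1`, `tw x i = 1` for all `i`,
`th i ^ x.val = 1`, so `L ∣ x.val` (`th_order`), `x = 0` in `ZMod L`.  Then `h = h (1 - b)` and `L' h = L' (1 - b) h = 0` in `ZMod L`, so `L = p ^ a L' ∣ L' p ^ (a-1)`: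
contradiction (`L' > 0`, `a ≥ 1`).  (Compare (2) in the docstring of `Pool.Agent.Helper94.YF.StPF` and `Pool.Agent.Helper67.YF.M_PF`.) -/
def StXD : Prop := StFUS → StDUA → ∀ (I : Type) [Fintype I] [DecidableEq I] (Z : CentreRep I)
  (p a : ℕ) (b : ZMod Z.L), p.Prime → 1 ≤ a → Idp Z.L p a b →
  ∃ k, Z.rho (s2 b) k Z.o ≠ 0 ∧ Z.tw b k ^ (p ^ (a - 1)) ≠ 1

/-- **OS MODULE LDV.**  The primes dividing `L` divide `n`.
PROOF.  Let `p ∣ L`, `p ∤ n`.  IDP: `a ≥ 1`, `b`.  `u i = rho (s2 b) i o`.  `n * u i` is an integer `M i` (as in the proof of `Pool.Agent.Helper94.YG.yve`: `StINT`, `s2_fixed`, `StRAT`).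
`Pool.Agent.Helper94.YG.desc_all` with `P = p ^ a`, `q = 1`, `t = n` (coprime to `p ^ a`): `u` is an integer vector `y`.  `rho (s2 b)` is unitary, so `∑ y i ^ 2 = 1`: exactly one `k` has `y k ≠ 0`.
By `kap_inv (s2 b) o` and symmetry of `rho (s2 b)` (`s2 b = U (-b) * Lo b * U (-b)`, FUS): `∑ i, y i * kap i = kap o = 1`, so `kap k ≠ 0`, and `kap_inv (U b) k`: `tw b k * kap k = kap k`, `tw b k = 1`.
This contradicts XD. -/
def StLDV : Prop := StXD → StIDP → StFUS → StDUA → StINT → StRAT → ∀ (I : Type) [Fintype I]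
  [DecidableEq I] (Z : CentreData I) (p : ℕ), p.Prime → p ∣ Z.L → p ∣ Z.n

/-- **OS MODULE NSD.**  No self-dual simple object except the unit if `n` is odd.
PROOF.  `L` is odd (LDV for `p = 2`), so `2` is a unit `c` of `ZMod L`.  Let `st V = V`.  `indicatorV o o V 2`: `lam : Fin M → ℂ`, `lam r ^ 2 = th o * conj (th o) = 1`.
`l = 2` (`gcd = 2`, `2 / 2 = 1`), `g = U 1` (first row `(1, 1)`): `∑ lam r ^ 2 = ∑ a b, rho (U 1) a o * conj (rho (U 1) b o) * (NMat V ^ 2) a b = (NMat V ^ 2) o o` (`rho (U 1) a o = th o [a = o]`)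
`= ∑ a, N o (st a) V * N a (st o) V`.  `N o x V = [x = V]` and `N x o V = [x = V]` (FUS (3) for `Lo 0 = 1`: `[i = j] = N i (st j) o`.. ; easiest from `verlinde o x l` resp. `verlinde x o l`: `S o l * S x l = S o l * ∑ k, N o x k * S k l`,
so `S x l = ∑ k, N o x k * S k l` for all `l`, and `S` is invertible).  So the sum is `[st V = V] = 1`: `M = 1` (as `∑ lam r ^ 2 = M`), and `∑ lam r = ± 1`.
`l = 1` (`gcd = 1`), `g = Dg c * U (c⁻¹)` (matrix `(2, 1; 0, 2⁻¹)`, first row `(2, 1)`): `rho g a o = [a = o]` (`rho (U z) = diagonal (tw z)`, `tw z o = 1`, `borel`), so `∑ lam r = NMat V o o = N o (st o) V = [o = V]`.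
So `V = o`. -/
def StNSD : Prop := StLDV → StXD → StIDP → StFUS → StDUA → StINT → StRAT →
  ∀ (I : Type) [Fintype I] [DecidableEq I] (Z : CentreData I), Odd Z.n → ∀ V, Z.st V = V → V = Z.o

/-- **OS MODULE YYZ.**  The integer vectors `y = p u` and `z = m u'`.
PROOF.  For an idempotent `c` the numbers `n * rho (s2 c) i o` are integers (as in the proof of `Pool.Agent.Helper94.YG.yve`: `StINT`, `s2_fixed`, `StRAT`).
(y) `Pool.Agent.Helper94.YG.desc_all` with `P = p ^ a`, `b`, `q = p`, `t = m` (coprime to `p ^ a`): `p * rho (s2 b) i o` is an integer.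
(z) `c = 1 - b` is idempotent; `L' ∣ L`, `L' * (1 - b) = 0`, `p` is coprime to `L'`: `Pool.Agent.Helper94.YG.descend` with `P = L'`, idempotent `1 - b`, `c = n` (`p ∣ n`): the integers
`n * rho (s2 (1-b)) i o` are divisible by `p`; divide by `p` (`n = p m`). -/
def StYYZ : Prop := StFUS → StDUA → StINT → StRAT → ∀ (I : Type) [Fintype I] [DecidableEq I]
  (Z : CentreData I) (p a m : ℕ) (b : ZMod Z.L), p.Prime → 1 ≤ a → Idp Z.L p a b → Z.n = p * m →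
  ¬ p ∣ m → ∃ y z : I → ℤ, (∀ i, (y i : ℂ) = (p : ℂ) * Z.rho (s2 b) i Z.o) ∧
    ∀ i, (z i : ℂ) = (m : ℂ) * Z.rho (s2 (1 - b)) i Z.o

/-- The context of the modules of part 1: everything constructed so far. -/
structure Cx {I : Type} [Fintype I] [DecidableEq I] (Z : CentreData I) (p a m : ℕ) (b : ZMod Z.L)
    (j : ZMod (p ^ a) → ZMod Z.L) (tu : (ZMod (p ^ a))ˣ → (ZMod Z.L)ˣ)
    (Pi : (ZMod Z.L)ˣ → I → I) (y z : I → ℤ) : Prop where
  prime : p.Prime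
  p_odd : Odd p
  m_odd : Odd m
  a_pos : 1 ≤ a
  cop : ¬ p ∣ m
  n_eq : Z.n = p * m
  idp : Idp Z.L p a b
  jh : JH Z.L (p ^ a) b j
  tu_val : ∀ w, (tu w : ZMod Z.L) = (1 - b) + j w
  tu_mul : ∀ w w', tu (w * w') = tu w * tu w'
  prm : ∀ c i k, Z.rho (Dg c) i k = if k = Pi c i then 1 else 0
  yy : ∀ i, (y i : ℂ) = (p : ℂ) * Z.rho (s2 b) i Z.o
  zz : ∀ i, (z i : ℂ) = (m : ℂ) * Z.rho (s2 (1 - b)) i Z.o

/-- **OS MODULE GRP.**  2x2 identities in `SL(2, Z/L)`.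
PROOF.  `b * b = b`, `b * j x = j x` (`b * j x = j 1 * j x = j (1 * x)`), `j w * j w⁻¹ = j 1 = b`, `j (-x) = - j x`
(`j (x + -x) = j 0 = 0`), `tu w * tu w⁻¹ = tu 1`, `(tu 1 : ZMod L) = (1 - b) + j 1 = 1`, so the inverse of `tu w` is `tu w⁻¹` with value `(1 - b) + j w⁻¹`;
`j (-1) = -b`, `(tu (-1) : ZMod L) = 1 - 2 b`.
All are computations with 2x2 matrices over the commutative ring `ZMod L`; `s2 b = (1-b, -b; b, 1-b)`, `s2 (1-b) = (b, -(1-b); 1-b, b)`.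
(4): both sides are `((1-b) + .. )`: on the part of `b` they are `(-1, 0; w, -1)`, on the part of `1 - b` the identity: both matrices are
`((1-b) - b, 0; j w, (1-b) - b)`. -/
def StGRP : Prop := ∀ (L P : ℕ) (b : ZMod L) (j : ZMod P → ZMod L) (tu : (ZMod P)ˣ → (ZMod L)ˣ),
  b * b = b → JH L P b j → (∀ w, (tu w : ZMod L) = (1 - b) + j w) →
  (∀ w w', tu (w * w') = tu w * tu w') →
  (s2 b * s2 (1 - b) = (Sm : SL L)) ∧ (s2 (1 - b) * s2 b = (Sm : SL L)) ∧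
  (s2 b * s2 b = (Dg (tu (-1)) : SL L)) ∧ ((s2 b : SL L)⁻¹ = s2 b * Dg (tu (-1))) ∧
  (U (1 - b) * s2 b = (s2 b * U (1 - b) : SL L)) ∧ (U b * s2 (1 - b) = (s2 (1 - b) * U b : SL L)) ∧
  (∀ w : (ZMod P)ˣ, s2 b * U (j w) * s2 b = (U (-(j ((w⁻¹ : (ZMod P)ˣ) : ZMod P))) * s2 b *
    Dg (tu w) * U (-(j ((w⁻¹ : (ZMod P)ˣ) : ZMod P))) : SL L)) ∧
  (∀ w : (ZMod P)ˣ, Dg (tu w) * s2 b = (s2 b * Dg (tu w⁻¹) : SL L)) ∧
  (∀ w : (ZMod P)ˣ, Dg (tu w) * s2 (1 - b) = (s2 (1 - b) * Dg (tu w) : SL L)) ∧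
  (∀ (c : (ZMod L)ˣ) (x : ZMod L), Dg c * U x = (U ((c : ZMod L) ^ 2 * x) * Dg c : SL L)) ∧
  (∀ x : ZMod L, b * x = x → (s2 b : SL L)⁻¹ * U x * s2 b = Lo (-x)) ∧
  (∀ c c' : (ZMod L)ˣ, (Dg (c * c') : SL L) = Dg c * Dg c') ∧ ((Dg (1 : (ZMod L)ˣ) : SL L) = 1)

/-- **OS MODULE ENT.**  The matrices `rho (s2 c)`.
PROOF.  `s2 c = U (-c) * Lo c * U (-c)`, so `rho (s2 c) i k = tw (-c) i * rho (Lo c) i k * tw (-c) k` (FUS: `rho (U z) = diagonal (tw z)`).  Symmetric by FUS.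
`rho (s2 c) i o = tw (-c) i * rho (Lo c) i o` (`tw z o = 1`), so `q * rho (Lo c) i o = tw c i * Y i` (`tw c i * tw (-c) i = tw 0 i = 1`) and
`q * rho (s2 c) i k = tw (-c) i * tw (-c) k * ∑ l, N i (st k) l * (tw c l * Y l)` (FUS (3)) is integral: `tw z i = th i ^ z.val` is a root of unity
(`th i ^ L = 1`).  The conjugate of an integral number is integral (`IsIntegral.map` with complex conjugation). -/
def StENT : Prop := StFUS → StDUA → ∀ (I : Type) [Fintype I] [DecidableEq I]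
  (Z : CentreRep I) (c : ZMod Z.L), (∀ i k, Z.rho (s2 c) i k = Z.rho (s2 c) k i) ∧
  ∀ (q : ℕ) (Y : I → ℤ), (∀ i, (Y i : ℂ) = (q : ℂ) * Z.rho (s2 c) i Z.o) →
    ∀ i k, IsIntegral ℤ ((q : ℂ) * Z.rho (s2 c) i k) ∧
      IsIntegral ℤ ((q : ℂ) * conj (Z.rho (s2 c) i k))

/-- **OS MODULE XA.**  Duality, twists, divisibility, the Lagrangian algebra.
PROOF.  Write `t = Z.tw b`, `u i = rho (s2 b) i o`, `u' i = rho (s2 (1-b)) i o`.
`y (st i) = y i`, `z`: DUA (`rho g (st i) (st o) = rho g i o`).  `tw b (st i) = tw b i` as `th (st i) = th i`.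
`tw b i ^ (p ^ a) = tw ((p^a) b) i = tw 0 i = 1` (by induction `tw (k b) i = tw b i ^ k`).
`th_of`: `U (1-b)` commutes with `s2 b` (GRP (5)): `tw (1-b) i * u i = u i * tw (1-b) o = u i`, so `tw (1-b) i = 1` if `y i ≠ 0`; `th i = tw 1 i =
tw b i * tw (1-b) i`.
`kap_t`: `kap_inv (U b) i`: `tw b i * kap i = kap i`.  `kap_y`: `kap_inv (s2 b) o`: `∑ j, rho (s2 b) o j * kap j = 1`, `rho (s2 b) o j = rho (s2 b) j o` (ENT).
`d_dvd`: NRM for `g = 1`, `t = i = i`: `n^2 / (d i)^2` is integral, so `(n / d i)^2` is (a rational number), `n / d i` is integral and rational, so an integer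
(RAT), `n = p m`.  `z_dvd`: NRM for `g = s2 (1-b)`, `t = i`, `i = o`: `n^2 * (u' i)^2 / (d i)^2 = (p * z i / d i)^2` (`u'` is real).
`z_t`: `U b` commutes with `s2 (1-b)` (GRP (6)): `tw b i * u' i = u' i`. -/
def StXA : Prop := StFUS → StDUA → StNRM → StRAT → StGRP → StENT →
  ∀ (I : Type) [Fintype I] [DecidableEq I] (Z : CentreData I) (p a m : ℕ) (b : ZMod Z.L)
  (j : ZMod (p ^ a) → ZMod Z.L) (tu : (ZMod (p ^ a))ˣ → (ZMod Z.L)ˣ) (Pi : (ZMod Z.L)ˣ → I → I)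
  (y z : I → ℤ), Cx Z p a m b j tu Pi y z →
  (∀ i, y (Z.st i) = y i) ∧ (∀ i, Z.tw b (Z.st i) = Z.tw b i) ∧ (∀ i, Z.tw b i ^ (p ^ a) = 1) ∧
  Z.tw b Z.o = 1 ∧ (∀ i, y i ≠ 0 → Z.tw b i = 1 → Z.th i = 1) ∧
  (∀ i, Z.kap i ≠ 0 → Z.tw b i = 1) ∧ (∑ i, y i * (Z.kap i : ℤ) = p) ∧ (∀ i, Z.d i ∣ p * m) ∧
  (∀ i, (Z.d i : ℤ) ∣ p * z i) ∧ (∀ i, z i ≠ 0 → Z.tw b i = 1)

/-- **OS MODULE XB.**  The matrix `s = p rho(s2 b)`.
PROOF.  ENT gives symmetry and (with `q = p`, `Y = y`) integrality.  Unitarity: `rho g * (rho g)ᴴ = 1`.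
`∑ j, s i j * d j`: `d j = n * rho Sm j o`, so it is `p * n * rho (s2 b * Sm) i o`, and `s2 b * Sm = s2 b * (s2 b * s2 (1-b)) = Dg (tu (-1)) * s2 (1-b) =
s2 (1-b) * Dg (tu (-1))` (GRP); entry `(i, o)` is `rho (s2 (1-b)) i o` by `borel`; `p * n = p ^ 2 * m`.
`∑ j, s i j * z j = p * m * rho (s2 b * s2 (1-b)) i o = n * rho Sm i o = d i`. -/
def StXB : Prop := StFUS → StDUA → StGRP → StENT →
  ∀ (I : Type) [Fintype I] [DecidableEq I] (Z : CentreData I) (p a m : ℕ) (b : ZMod Z.L)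
  (j : ZMod (p ^ a) → ZMod Z.L) (tu : (ZMod (p ^ a))ˣ → (ZMod Z.L)ˣ) (Pi : (ZMod Z.L)ˣ → I → I)
  (y z : I → ℤ), Cx Z p a m b j tu Pi y z →
  (∀ i k, (p : ℂ) * Z.rho (s2 b) i k = (p : ℂ) * Z.rho (s2 b) k i) ∧
  (∀ i k, IsIntegral ℤ ((p : ℂ) * Z.rho (s2 b) i k)) ∧
  (∀ i k, ∑ l, (p : ℂ) * Z.rho (s2 b) i l * conj ((p : ℂ) * Z.rho (s2 b) k l) =
    if i = k then (p : ℂ) ^ 2 else 0) ∧
  (∀ i, ∑ k, (p : ℂ) * Z.rho (s2 b) i k * (Z.d k : ℂ) = (p : ℂ) ^ 2 * z i) ∧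
  (∀ i, ∑ k, (p : ℂ) * Z.rho (s2 b) i k * (z k : ℂ) = Z.d i)

/-- **OS MODULE XC.**  The torus.
PROOF.  `G c = rho (Dg c)` has the entry `1` at `(i, Pi c i)`, `0` elsewhere; `(G c * M) i k = M (Pi c i) k`; `G c` is unitary, so `Pi c` is injective and
`(M * G c) i (Pi c k) = M i k`.  `c := tu w`.
(1), (2): `Dg` is multiplicative (GRP), `(G c * G c') i k = [k = Pi c' (Pi c i)]`, and `tu (w * w') = tu (w' * w)`; `(tu 1 : ZMod L) = 1`.
(3) `borel`: `rho (Dg c) i o = [i = o]`, so `Pi c i = o ↔ i = o`.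
(4) `d`: AUT for `c`: `σ (rho Sm i k) = (G c * rho Sm) i k = rho Sm (Pi c i) k`; with `k = o`, `rho Sm i o = d i / n` is rational.
(5) `y (Pi c i) = y i`: `Dg (tu w) * s2 b = s2 b * Dg (tu w⁻¹)`; entry `(i, o)`: `rho (s2 b) (Pi c i) o = rho (s2 b) i o` by `borel`.  (6) `z`: the same with
`Dg (tu w) * s2 (1-b) = s2 (1-b) * Dg (tu w)`.
(7) `Dg c * U b = U (c^2 b) * Dg c`; entry `(i, Pi c i)`: `tw b (Pi c i) = tw (c^2 b) i`; `c^2 b = ((1-b) + j w)^2 b = j (w^2)`, and `tw (j x) i = tw b i ^ x.val`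
(`j x = x.val * b`, `tw (k b) i = tw b i ^ k`).
(8) `Dg (tu w) * s2 b = s2 b * Dg (tu w⁻¹)`, entry `(i, k)`: left `rho (s2 b) (Pi (tu w) i) k`; right: `∑ l, rho (s2 b) i l * [k = Pi (tu w⁻¹) l]`, `l = Pi (tu w) k`.
(9) `conj`: `rho (s2 b)` is symmetric and unitary so `conj (rho (s2 b) i k) = rho ((s2 b)⁻¹) k i = rho ((s2 b)⁻¹) i k`(symmetric too), `(s2 b)⁻¹ = s2 b * Dg (tu (-1))`:
`= ∑ l, rho (s2 b) i l [k = Pi (tu (-1)) l] = rho (s2 b) i (Pi (tu (-1)) k)` (`(-1) * (-1) = 1`).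
(10) `galois σ` gives a unit `c0` of `ZMod L`; `g = s2 b`, `g' = s2 b * Dg (tu w)` where `w` is the unit of `ZMod (p^a)` with `(tu w : ZMod L) = (1-b) + c0⁻¹ b`
(`w` = image of `c0⁻¹` under `ZMod.castHom (p^a ∣ L)`, `j (w) = c0⁻¹ * b`: both are `(c0⁻¹).val * b` modulo `p^a`): `g' = (1-b, -c0 b; c0⁻¹ b, 1-b)`.  So
`σ (rho (s2 b) i k) = rho (s2 b) i (Pi (tu w⁻¹) k)`.
(11) `weil0`: `s2 b * s2 b = Dg (tu (-1))`.  (12) `weil`: GRP (7), entry `(i, k)`: `rho (U (j w)) = diagonal (tw (j w))`, `tw (j w) l = tw b l ^ w.val`; the right side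
`tw (-(j w⁻¹)) i * (rho (s2 b) * G (tu w)) i k * tw (-(j w⁻¹)) k`, `(rho (s2 b) * G (tu w)) i k = rho (s2 b) i (Pi (tu w⁻¹) k)`, `-(j w⁻¹) = j (-w⁻¹)`. -/
def StXC : Prop := StFUS → StDUA → StAUT → StGRP → StENT →
  ∀ (I : Type) [Fintype I] [DecidableEq I] (Z : CentreData I) (p a m : ℕ) (b : ZMod Z.L)
  (j : ZMod (p ^ a) → ZMod Z.L) (tu : (ZMod (p ^ a))ˣ → (ZMod Z.L)ˣ) (Pi : (ZMod Z.L)ˣ → I → I)
  (y z : I → ℤ), Cx Z p a m b j tu Pi y z →
  (∀ i, Pi (tu 1) i = i) ∧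
  (∀ (c c' : (ZMod (p ^ a))ˣ) (i : I), Pi (tu (c * c')) i = Pi (tu c) (Pi (tu c') i)) ∧
  (∀ c, Pi (tu c) Z.o = Z.o) ∧ (∀ c i, Z.d (Pi (tu c) i) = Z.d i) ∧
  (∀ c i, y (Pi (tu c) i) = y i) ∧ (∀ c i, z (Pi (tu c) i) = z i) ∧
  (∀ (c : (ZMod (p ^ a))ˣ) (i : I),
    Z.tw b (Pi (tu c) i) = Z.tw b i ^ ((c : ZMod (p ^ a)) ^ 2).val) ∧
  (∀ c i k, Z.rho (s2 b) (Pi (tu c) i) k = Z.rho (s2 b) i (Pi (tu c) k)) ∧
  (∀ i k, conj (Z.rho (s2 b) i k) = Z.rho (s2 b) i (Pi (tu (-1)) k)) ∧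
  (∀ σ : ℂ ≃+* ℂ, ∃ c, ∀ i k, σ (Z.rho (s2 b) i k) = Z.rho (s2 b) i (Pi (tu c) k)) ∧
  (∀ i k, ∑ l, Z.rho (s2 b) i l * Z.rho (s2 b) l k = if i = Pi (tu (-1)) k then 1 else 0) ∧
  (∀ (w : (ZMod (p ^ a))ˣ) (i k : I),
    ∑ l, Z.tw b l ^ (w : ZMod (p ^ a)).val * (Z.rho (s2 b) i l * Z.rho (s2 b) l k) =
    (Z.tw b i ^ (-((w⁻¹ : (ZMod (p ^ a))ˣ) : ZMod (p ^ a))).val *
      Z.tw b k ^ (-((w⁻¹ : (ZMod (p ^ a))ˣ) : ZMod (p ^ a))).val) *
      Z.rho (s2 b) i (Pi (tu w⁻¹) k))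

/-- the characters of the fusion ring -/
noncomputable def Cchi {I : Type} [Fintype I] [DecidableEq I] (Z : CentreData I) (i k : I) : ℂ :=
  Z.rho Sm k i / Z.rho Sm Z.o i

/-- **OS MODULE XE.**  The fusion ring.
PROOF.  `S = rho Sm`, `S o i = d i / n ≠ 0`.
(1) `Cchi i k` is integral: step (1) of the docstring of `Pool.Agent.Helper94.YF.StNRM` (proved inside `Pool.Agent.Helper2.YF.M_NRM`): the vector `(S v i)_v` is a common
eigenvector of the natural matrices `N k`, eigenvalue `Cchi i k`.  (2) `Cchi i o = 1`.  (3) `Cchi o k = S k o / S o o = d k`.  (4) `verlinde k l i` divided by `(S o i)^2`.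
(5) `w i k = m * conj (rho (s2 (1-b)) k i)`, integral by ENT (`q = m`, `Y = z`).  `A = rho (s2 (1-b))` is symmetric and unitary, `A⁻¹ = conj A` entrywise, and
`S = A * rho (s2 b)` (GRP (2)).  `∑ k, w i k * Cchi l k = (m / S o l) * ∑ k, conj (A k i) * S k l = (m / S o l) * (A⁻¹ * S) i l = (m n / d l) * rho (s2 b) i l`
`= (m^2 / d l) * (p * rho (s2 b) l i)` (symmetric).
(6) With `D = diagonal (Cchi . k)`: `verlinde` says `S * D = N_k * S`, `(N_k) i v = N k i v` (as a matrix with natural entries).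
The complex conjugate of the number is `(m^2) * ∑ l, B i l * conj (Cchi l k) * conj (B l i')`, `B = rho (s2 b)` (`s = p B`), `conj (Cchi l k) = Cchi l (st k)` (`s_dual`), i.e.
`m^2 * (B * D' * B⁻¹) i i'` with `D' = diagonal (Cchi . (st k))`, `D' = S⁻¹ * N_{st k} * S`, `B * S⁻¹ = A⁻¹` (`S = A * B`), so it is `m^2 * (A⁻¹ * N_{st k} * A) i i'`, integral
by ENT as `m * A⁻¹` and `m * A` have integral entries.  The conjugate of an integral number is integral.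
(7) `∑ k, B i k * E k = E i` (divide by `p`), so `(S * E) l = (A * (B * E)) l = (A * E) l`.  `U b * s2 (1-b) = s2 (1-b) * U b`: `tw b l * (A * E) l = (A * (tw b * E)) l = (A * E) l`
as `E k ≠ 0 → tw b k = 1`; so `(A * E) l = 0` if `tw b l ≠ 1`.  And `(S * E) l = S o l * ∑ k, E k * Cchi l k` (`S` symmetric). -/
def StXE : Prop := StFUS → StDUA → StGRP → StENT →
  ∀ (I : Type) [Fintype I] [DecidableEq I] (Z : CentreData I) (p a m : ℕ) (b : ZMod Z.L)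
  (j : ZMod (p ^ a) → ZMod Z.L) (tu : (ZMod (p ^ a))ˣ → (ZMod Z.L)ˣ) (Pi : (ZMod Z.L)ˣ → I → I)
  (y z : I → ℤ), Cx Z p a m b j tu Pi y z →
  (∀ i k, IsIntegral ℤ (Cchi Z i k)) ∧ (∀ i, Cchi Z i Z.o = 1) ∧ (∀ k, Cchi Z Z.o k = Z.d k) ∧
  (∀ i k l, Cchi Z i k * Cchi Z i l = ∑ v, (Z.N k l v : ℂ) * Cchi Z i v) ∧
  (∃ w : I → I → ℂ, (∀ i k, IsIntegral ℤ (w i k)) ∧ ∀ i l,
    (m : ℂ) ^ 2 * ((p : ℂ) * Z.rho (s2 b) l i) = (Z.d l : ℂ) * ∑ k, w i k * Cchi Z l k) ∧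
  (∀ k i i', IsIntegral ℤ ((m : ℂ) ^ 2 / (p : ℂ) ^ 2 * ∑ l, conj ((p : ℂ) * Z.rho (s2 b) l i) *
    Cchi Z l k * ((p : ℂ) * Z.rho (s2 b) l i'))) ∧
  (∀ E : I → ℂ, (∀ i, ∑ k, (p : ℂ) * Z.rho (s2 b) i k * E k = (p : ℂ) * E i) →
    (∀ k, E k ≠ 0 → Z.tw b k = 1) → ∀ l, Z.tw b l ≠ 1 → ∑ k, E k * Cchi Z l k = 0)

end Pool.Agent.Helper89.OS
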