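import Pool.Agent.Helper89.OS.St1

/-!
# Project OS (MP_2b6189_al), part 2: from the `p`-local data `PD` to the theorem

Every module proves `theorem hXXX : ... → StXXX`; further statements of the files `Pool.Agent.Helper94.YF.St` (`StRAT` is proved:
`Pool.Agent.Helper94.YF.hRAT'`) and `St2` may be added as hypotheses.  `X : PD I p a`; `B = {k | y k ≠ 0}`, `x = y o`.
All facts used are fields of `PD` (file `Defs.lean`) or hypotheses.
Useful: `∑ k, y k ^ 2 = p ^ 2` (field `s_uni` for `i = j = o`, `s o k = y k` by `s_symm`, `s_o`).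
-/

set_option autoImplicit false

namespace Pool.Agent.Helper89.OS

open Matrix ComplexConjugate Pool.Agent.Helper94.YF Pool.Agent.Helper94.YG

/-- `Q z`: the complex number `z` lies in a fixed prime ideal, containing `p`, of the ring of all algebraic integers. -/
structure PI (p : ℕ) (Q : ℂ → Prop) : Prop where
  int : ∀ z, Q z → IsIntegral ℤ z
  zero : Q 0
  add : ∀ x y, Q x → Q y → Q (x + y)
  mul : ∀ x y, IsIntegral ℤ x → Q y → Q (x * y)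
  prime : ∀ x y, IsIntegral ℤ x → IsIntegral ℤ y → Q (x * y) → Q x ∨ Q y
  int_iff : ∀ k : ℤ, Q (k : ℂ) ↔ (p : ℤ) ∣ k
  pw : ∀ x, Q x → ∃ (K : ℕ) (s : ℂ), 0 < K ∧ IsIntegral ℤ s ∧ ¬ Q s ∧
    IsIntegral ℤ (s * x ^ K / (p : ℂ) ^ 2)

/-- **OS MODULE PID.**  PROOF.  `A = integralClosure ℤ ℂ`, a commutative ring.  `p` is not a unit of `A` (`1 / p` is rational, not an integer: RAT).
Let `M` be a maximal ideal of `A` containing `p` (`Ideal.exists_le_maximal` for `Ideal.span {p}`).  `Q z := ∃ h : IsIntegral ℤ z, (⟨z, h⟩ : A) ∈ M`.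
`int_iff`: if `p ∣ k` clear; if `p ∤ k` then `1 = u p + v k` so `k ∉ M`.
`pw`: let `x ∈ M`.  `R = Algebra.adjoin ℤ {x}` is a finitely generated `ℤ`-module (`IsIntegral`: `IsIntegral.fg_adjoin_singleton`), so `R / p ^ 2 R` is finite, so there are
`i < j` with `x ^ j - x ^ i ∈ p ^ 2 R ⊆ p ^ 2 A` (pigeonhole, infinitely many exponents).  Hence `x ^ (k + (j - i)) ≡ x ^ k` for all `k ≥ i` and, with `K = (j - i) * (i + 1) ≥ i`
a positive multiple of `j - i`, `x ^ (2 K) ≡ x ^ K mod p ^ 2 A`.  Put `s = 1 - x ^ K`: `s * x ^ K = x ^ K - x ^ (2 K) ∈ p ^ 2 A`, and `s ∉ M` as `x ^ K ∈ M`.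
(To get finiteness concretely: `x` is a root of a monic integer polynomial of degree `N`, so every `x ^ k` is an integer combination of `1, x, .., x ^ (N-1)`; the map
`k ↦` coefficients modulo `p ^ 2`, a vector in `Fin N → ZMod (p ^ 2)`, is not injective; `Polynomial.modByMonic`.) -/
def StPID : Prop := StRAT → ∀ p : ℕ, p.Prime → ∃ Q : ℂ → Prop, PI p Q

/-- **OS MODULE CGR.**  Congruences in the principal block.
PROOF.  `con`: `w`.  Put `C i = ∑ k, w i k * chi j k`, `C' i = ∑ k, w i k * d k = ∑ k, w i k * chi o k`.  `m ^ 2 * s j i = d j * C i`, and for `j = o`: `m ^ 2 * y i = C' i`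
(`s o i = y i`, `d o = 1`).  `C i - C' i = ∑ k, w i k * (chi j k - d k)` is in `Q`.  So `m ^ 2 * (s j i - d j * y i) = d j * (C i - C' i)` is in `Q`, `m ^ 2` is not (`p ∤ m`), so
`Q (s j i - d j * y i)` (`prime`; `s` integral).
For `i = o`: `C o = m ^ 2 * y j / d j` is rational and integral, an integer `c` (RAT), `m ^ 2 * y j = d j * c`, and `Q (c - m ^ 2 * x)` gives `p ∣ c - m ^ 2 x`, so `p ∤ c`; `y j ≠ 0`.
If `p ∣ d j` then `p ∣ y j`, so `y j ^ 2 ≥ p ^ 2`; `x ≠ 0` and `∑ y ^ 2 = p ^ 2`, so `j = o`, but `d o = 1`.  So `p ∤ d j`, and `p ∤ y j`. -/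
def StCGR : Prop := StRAT → ∀ (I : Type) [Fintype I] [DecidableEq I] (p a : ℕ) (X : PD I p a)
  (Q : ℂ → Prop), PI p Q → ¬ (p : ℤ) ∣ X.y X.o → ∀ j, (∀ k, Q (X.chi j k - X.d k)) →
  X.y j ≠ 0 ∧ ¬ p ∣ X.d j ∧ ¬ (p : ℤ) ∣ X.y j ∧ ∀ i, Q (X.s j i - X.d j * X.y i)

open Classical in
/-- the principal block -/
noncomputable def B0 {I : Type} [Fintype I] [DecidableEq I] {p a : ℕ} (X : PD I p a)
    (Q : ℂ → Prop) : Finset I := Finset.univ.filter fun j => ∀ k, Q (X.chi j k - X.d k)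

/-- **OS MODULE ISO.**  Isolating the principal block.
PROOF.  Call `h : I → ℂ` good if `h j = ∑ k, v k * chi j k` for some integral `v k`.  `1` is good (`chi j o = 1`), `chi . k` is good, constants (integral), sums and products of good
functions are good (`chi_mul`, `N` natural).  If `h` is good then `(m^2 / p^2) * ∑ j, conj (s j i) * h j * s j i'` is integral (`nhat`).
For every `j' ∉ B0` choose `k j'` with `¬ Q (chi j' (k j') - d (k j'))`.  `f j = ∏_{j' ∉ B0} (chi j (k j') - chi j' (k j'))` is good (integral), `f j = 0` for `j ∉ B0`,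
`c := f o = ∏ (d (k j') - chi j' (k j'))` is integral and not in `Q` (`prime`, `¬ Q 1`), and `Q (f j - c)` for `j ∈ B0` (each factor is congruent to that of `o`; the difference of
products).  For `j ∈ B0` put `a j = f j - c`; `pw`: `K j`, `s j`; let `r = ∑ K j` (or the maximum), `r > 0` as `o ∈ B0`; then `(s j) * (a j) ^ r / p ^ 2` is integral.
`h = c ^ r - (c - f) ^ r` is good, `h j = 0` for `j ∉ B0`, `h j = c ^ r - (- a j) ^ r` for `j ∈ B0`.  So `(m^2/p^2) * ∑_{j ∈ B0} conj (s j i) * s j i' * (c ^ r - (- a j) ^ r)` is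
integral.  Multiply by `σ = ∏_{j ∈ B0} s j` (not in `Q`): as `σ * (a j) ^ r / p ^ 2` is integral, `σ * m^2 * c ^ r * E / p ^ 2` is integral, `E = ∑_{j ∈ B0} conj (s j i) * s j i'`.
`S = σ * m ^ 2 * c ^ r` is not in `Q`.  (`conj (s j i)` is integral: it is `s j (pi (-1) i)`.) -/
def StISO : Prop := ∀ (I : Type) [Fintype I] [DecidableEq I] (p a : ℕ) (X : PD I p a)
  (Q : ℂ → Prop), PI p Q → ∀ i i', ∃ S : ℂ, IsIntegral ℤ S ∧ ¬ Q S ∧
    IsIntegral ℤ (S * (∑ j ∈ B0 X Q, conj (X.s j i) * X.s j i') / (p : ℂ) ^ 2)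

/-- The structure of the principal block `B = {k | y k ≠ 0}` (module BLK). -/
structure Blk {I : Type} [Fintype I] [DecidableEq I] {p a : ℕ} (X : PD I p a) (Q : ℂ → Prop) :
    Prop where
  pi : PI p Q
  x_nd : ¬ (p : ℤ) ∣ X.y X.o
  d_nd : ∀ j, X.y j ≠ 0 → ¬ p ∣ X.d j
  y_nd : ∀ j, X.y j ≠ 0 → ¬ (p : ℤ) ∣ X.y j
  cg : ∀ j, X.y j ≠ 0 → ∀ i, Q (X.s j i - X.d j * X.y i)
  sup : ∀ j i, X.y j ≠ 0 → X.y i = 0 → X.s j i = 0
  nz : ∀ j i, X.y j ≠ 0 → X.y i ≠ 0 → X.s j i ≠ 0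

/-- **OS MODULE BLK.**
PROOF.  (0) If `E` is an integer, `S` integral, `¬ Q S`, `S * E / p ^ 2` integral, then `p ^ 2 ∣ E`: `S * E = p ^ 2 * (..)` is in `Q`, so `Q E`, `p ∣ E = p E'`; `S * E' = p * (S * E / p ^ 2)` is in
`Q`, so `p ∣ E'`.
(1) `o ∈ B0` (`chi o k = d k`, `Q 0`).  ISO for `i = i' = o`: `s j o = y j`, `E = ∑_{j ∈ B0} y j ^ 2` is an integer, divisible by `p ^ 2`, `0 < x ^ 2 ≤ E ≤ ∑ y ^ 2 = p ^ 2`.  So `E = p ^ 2` and
`y j = 0` for `j ∉ B0`.  With CGR: `j ∈ B0 ↔ y j ≠ 0`; this gives `d_nd`, `y_nd`, `cg`.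
(2) Let `y i ≠ 0`; `E = ∑_{j ∈ B0} conj (s j i) * s j i`.  It is fixed by all automorphisms `σ` of `ℂ`: `conj (s j i) = conj (s i j) = s i (pi (-1) j)`; `gal`: `σ (s i j) = s i (pi c j)`, so
`σ (conj (s i j) * s i j) = s i (pi c (pi (-1) j)) * s i (pi c j) = conj (s i (pi c j)) * s i (pi c j)` (`pi_mul`, units commute), and `j ↦ pi c j` is a bijection of `B0 = {y j ≠ 0}` (`pi_y`).  So
`E` is an integer (RAT), real, `0 < y i ^ 2 = |s o i|^2 ≤ E ≤ ∑_j |s j i|^2 = p ^ 2` (`s_uni`, `s_symm`), and `p ^ 2 ∣ E` by ISO and (0).  So `E = p ^ 2` and `s j i = 0` for `j ∉ B0`: `sup` (`s_symm`).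
(3) `nz`: if `s j i = 0` then `Q (d j * y i)` (up to sign), `p ∣ d j * y i`: contradiction. -/
def StBLK : Prop := StRAT → StCGR → StISO → ∀ (I : Type) [Fintype I] [DecidableEq I] (p a : ℕ)
  (X : PD I p a) (Q : ℂ → Prop), PI p Q → ¬ (p : ℤ) ∣ X.y X.o → Blk X Q

/-- **OS MODULE AMG.**
PROOF.  `P = ∏_{j ∈ S} s k j` is integral, nonzero (`nz`), and fixed by all automorphisms (`gal`: `σ (s k j) = s k (pi c j)`, and `pi c` is injective (`pi_mul`, `pi_one`) and maps `S` into `S`, so it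
is a bijection of `S`).  So `P` is a nonzero integer (RAT), `|P| ≥ 1`, `∏ |s k j|^2 ≥ 1`, and `∑ (|s k j|^2 - 1) ≥ ∑ log |s k j|^2 ≥ 0` (`Real.log_le_sub_one_of_pos`). -/
def StAMG : Prop := StRAT → ∀ (I : Type) [Fintype I] [DecidableEq I] (p a : ℕ) (X : PD I p a)
  (Q : ℂ → Prop), Blk X Q → ∀ (k : I) (S : Finset I), X.y k ≠ 0 → (∀ j ∈ S, X.y j ≠ 0) →
  (∀ c, ∀ j ∈ S, X.pi c j ∈ S) → (S.card : ℝ) ≤ ∑ j ∈ S, ‖X.s k j‖ ^ 2

/-! ### the case `a ≥ 2` -/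

open Classical in
/-- **OS MODULE TWA.**  Counting in the case `a ≥ 2`.
PROOF.  `p ≥ 3`.  `ex`: `k0` with `y k0 ≠ 0`, `ζ = t k0`, `ζ ^ (p ^ (a-1)) ≠ 1`, `ζ ^ (p ^ a) = 1`: a primitive root of order `P = p ^ a`.
(1) Let `E = {k | y k ≠ 0, t k ^ (p ^ (a-1)) ≠ 1}`.  Then `φ(P) ≤ |E|`.  For a unit `c` let `k_c = pi c k0`: `y` is nonzero, `t k_c = ζ ^ (c^2).val`.  Let `S2` be the set of
values `ζ ^ (c^2).val`, `c` a unit.  If `ζ ^ (c^2).val = ζ ^ (c'^2).val` then `c^2 = c'^2` in `ZMod P`, `(c - c')(c + c') = 0`; `p` does not divide both `c - c'` and `c + c'` (it would divide `2 c`), so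
one of them is a unit and `c = ± c'`.  So `φ(P) = |units| ≤ 2 |S2|` (`Finset.card_le_mul_card_image`).  For each `ξ ∈ S2`, `ξ = t k_c`, the two elements `k_c` and `st k_c` are different (`nsd`; `k_c ≠ o` as
`t k_c ≠ 1 = t o`: `t k_c ^ (p^(a-1)) ≠ 1`) and lie in `E` with `t = ξ` (`y_st`, `t_st`).  So `|E| ≥ 2 |S2| ≥ φ(P)`.
(2) `p ^ (a-1) (p - 1) = φ(P) ≤ |E| ≤ ∑_{E} y ^ 2 ≤ p ^ 2`, so `a = 2` (if `a ≥ 3`: `p ^ 2 (p - 1) ≤ p ^ 2`, false).  `|E| ≥ p ^ 2 - p`.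
(3) `a = 2`.  For every unit `w` of `ZMod (p^2)`: `weil` for `i = k = o`: `∑ k, t k ^ w.val * y k ^ 2 = p * x`.  Sum over all units: `∑_w θ ^ w.val` is `p^2 - p` for `θ = 1`, `-p` for `θ ≠ 1`, `θ ^ p = 1`,
and `0` for `θ ^ p ≠ 1`, `θ ^ (p^2) = 1` (sum over all residues minus the sum over the multiples of `p`; geometric sums).  With `M1 = ∑_{t = 1} y ^ 2`, `Mp = ∑_{t ^ p = 1, t ≠ 1} y ^ 2`:
`(p^2 - p) M1 - p Mp = (p^2 - p) p x`, i.e. `(p - 1) M1 - Mp = (p - 1) p x`.  `q := M1 + Mp = p^2 - ∑_E y^2 ≤ p`.  So `p M1 - q = (p-1) p x`, `p ∣ q`, `q = 0` or `q = p`.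
`q = 0`: `y k = 0` whenever `t k = 1`, contradiction with `kap_y`, `kap_t` (`p ≠ 0`).  So `q = p`, `M1 = 1 + (p-1) x`, `Mp = (p-1)(1-x)`.  `Mp ≥ 0`: `x ≤ 1`; `M1 ≥ 0`, `p ≥ 3`: `x ≥ 0`.
`x = 0`: `M1 = 1`: exactly one `k` with `t k = 1`, `y k ≠ 0`; then `st k = k` (`y_st`, `t_st`), so `k = o`, but `y o = 0`.  So `x = 1`, `M1 = p`, `Mp = 0`. -/
def StTWA : Prop := ∀ (I : Type) [Fintype I] [DecidableEq I] (p a : ℕ) (X : PD I p a), 2 ≤ a →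
  a = 2 ∧ X.y X.o = 1 ∧ (∑ i, if X.t i = 1 then X.y i ^ 2 else 0) = p ∧
  (∀ k, X.y k ≠ 0 → X.t k ^ p = 1 → X.t k = 1) ∧
  p ^ 2 ≤ (Finset.univ.filter fun k => X.y k ≠ 0 ∧ X.t k ≠ 1).card + p

/-- **OS MODULE TWB.**  The case `a ≥ 2`.
PROOF.  TWA; `x = 1`, so BLK applies (`PID` gives `Q`).  `K = {k | y k ≠ 0, t k = 1}`, `E = {k | y k ≠ 0, t k ≠ 1}`, both stable under all `pi c` (`pi_y`, `pi_t`; if `t (pi c k) = 1` then
`t k = t (pi c⁻¹ (pi c k)) = 1`).  `|K| ≤ ∑_K y^2 = p`, `|E| ≥ p ^ 2 - p`.  Let `j ∈ K`.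
(i) `∑_{k ∈ K} s j k * d k = p * d j`: for a unit `w`: `∑ k, t k ^ w.val * (s j k * d k)` with `d k = ∑ i, s k i * z i` is, by `weil`, `∑ i, z i * p * (t j ^ .. * t i ^ ..) * s j (pi w⁻¹ i)` `=
p * ∑ i, z i * s j (pi w⁻¹ i)` (`t j = 1`, `t i = 1` if `z i ≠ 0`) `= p * ∑ i, z i * s j i = p * d j` (`pi_z`, bijection).  Sum over all units `w` of `ZMod (p^2)`: `s j k = 0` if `y k = 0` (`sup`); if
`y k ≠ 0` then `t k = 1` or `t k ^ p ≠ 1` (TWA), and `∑_w (t k) ^ w.val` is `p^2 - p`, resp. `0`.  So `(p^2 - p) ∑_{k ∈ K} s j k * d k = (p^2 - p) * p * d j`.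
(ii) `∑_{k ∈ K} |s j k|^2 ≤ p`: `∑_{k ∈ K} + ∑_{k ∈ E} |s j k|^2 = p^2` (`s_uni`, `sup`) and `∑_E |s j k|^2 ≥ |E| ≥ p^2 - p` by AMG.
(iii) Take `j ∈ K` with `d j` maximal (`o ∈ K`).  `p * d j ≤ ∑_K |s j k| * d k ≤ d j * ∑_K |s j k|`, and `(∑_K |s j k|)^2 ≤ |K| * ∑_K |s j k|^2 ≤ |K| * p ≤ p ^ 2` (Cauchy: `inner_mul_le_norm_mul_norm`,
`sq_sum_le_card_mul_sum_sq`).  So `∑_K |s j k| = p`, `|K| ≥ p ≥ 3`, and `∑_K |s j k| * (d j - d k) ≤ p * d j - p * d j = 0`, so `d k = d j` for all `k ∈ K` (`|s j k| > 0`); `d o = 1`.  So every `k ∈ K` has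
`d k = 1`; take `k ≠ o` in `K`; `th_of`. -/
def StTWB : Prop := StTWA → StBLK → StAMG → StRAT → StCGR → StISO → StPID →
  ∀ (I : Type) [Fintype I] [DecidableEq I] (p a : ℕ) (X : PD I p a), 2 ≤ a →
  ∃ k, k ≠ X.o ∧ X.d k = 1 ∧ X.th k = 1

/-! ### the case `a = 1`.  `g = p - y o`. -/

open Classical in
/-- **OS MODULE MZZ.**
PROOF.  `a = 1`.  For a unit `w` of `ZMod (p^1)`: `weil` for `i = k = o` (`t o = 1`, `pi c o = o`): `∑ k, t k ^ w.val * y k ^ 2 = p * x`; and `∑ k, y k ^ 2 = p ^ 2`.  The units are the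
nonzero residues.  For `ζ ^ p = 1`: multiply by `ζ ^ (-w)` (`= (ζ⁻¹) ^ w.val`) and sum over all residues `w`: `p * ∑_{t k = ζ} y k ^ 2 = p ^ 2 + p x * (∑_{w ≠ 0} ζ ^ (-w))` `= p ^ 2 + p x (p - 1)` for `ζ = 1`,
`= p ^ 2 - p x` for `ζ ≠ 1`.  This is (2), (1).
(3) `ex` (`p ^ (a-1) = 1`): `k0` with `y k0 ≠ 0`, `t k0 ≠ 1`; so `p - x = ∑_{t k = t k0} y k ^ 2 > 0`, and it is even: `st` is an involution without fixed points on `{t k = t k0}` (`o` is not in it, `nsd`) which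
preserves `y`.  (`Finset.sum_involution`-style or pair off; modulo 2 the sum of `y k ^ 2` over a set with a fixed point free involution preserving `y` is `0`: `Finset.sum_involution` in `ZMod 2`.)
So `g = p - x ≥ 2` is even.  `x > 0`: `x` is odd (`p` odd).  `x ^ 2 ≤ ∑_{t = 1} y ^ 2 = p + (p-1) x`.  If `x ≤ -2` the right side is `≤ p - 2 (p-1) = 2 - p < 0`.  If `x = -1`: `∑_{t=1} y^2 = 1 = x^2`, so `y k = 0`
for `t k = 1`, `k ≠ o`, and `kap_y`, `kap_t` give `-1 = p`.  So `x ≥ 1`, `g ≤ p - 1`; `1 ≤ x < p` so `p ∤ x`. -/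
def StMZZ : Prop := ∀ (I : Type) [Fintype I] [DecidableEq I] (p : ℕ) (X : PD I p 1),
  (∀ ζ : ℂ, ζ ≠ 1 → ζ ^ p = 1 → (∑ i, if X.t i = ζ then X.y i ^ 2 else 0) = p - X.y X.o) ∧
  (∑ i, if X.t i = 1 then X.y i ^ 2 else 0) = p + (p - 1) * X.y X.o ∧
  (∃ k, X.y k ≠ 0 ∧ X.t k ≠ 1) ∧ Even ((p : ℤ) - X.y X.o) ∧ 2 ≤ (p : ℤ) - X.y X.o ∧
  1 ≤ X.y X.o ∧ ¬ (p : ℤ) ∣ X.y X.o

open Classical in
/-- **OS MODULE HEC.**  The Hecke relation.
PROOF.  Let `F k = ∑ i, s k i * f i`.  For `θ ^ p = 1` the sum of `θ ^ w.val` over all `w : ZMod (p^1)` is `p` if `θ = 1`, else `0`.  So `p` times the left side is `∑_w ∑ k, t k ^ w.val * (s j k * F k)`.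
`w = 0`: `∑ i, f i * ∑ k, s j k * s k i = p ^ 2 * f (i)` with `j = pi (-1) i` (`weil0`), i.e. `p ^ 2 * f j` (`f` invariant, `pi (-1) (pi (-1) i) = i`).
`w` a unit: `weil`: `∑ i, f i * p * (t j ^ e * t i ^ e) * s j (pi w⁻¹ i)`, `e = (-w⁻¹).val`; `t i = 1` if `f i ≠ 0`; reindex by `pi w⁻¹` (`f` invariant): `p * t j ^ e * F j`.  Sum over the units `w`: `e` runs over
the `v.val`, `v ≠ 0`: `∑ t j ^ e = (p if t j = 1 else 0) - 1`.  Divide by `p`. -/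
def StHEC : Prop := ∀ (I : Type) [Fintype I] [DecidableEq I] (p : ℕ) (X : PD I p 1) (f : I → ℂ),
  (∀ c i, f (X.pi c i) = f i) → (∀ i, f i ≠ 0 → X.t i = 1) → ∀ j,
  (∑ k, if X.t k = 1 then X.s j k * ∑ i, X.s k i * f i else 0) =
    (p : ℂ) * f j + ((if X.t j = 1 then (p : ℂ) else 0) - 1) * ∑ i, X.s j i * f i

open Classical in
/-- **OS MODULE STL.**  The Steinberg lemma.
PROOF.  Let `v j = (if j = o then p else 0) - y j`, `h j = p * f j - F j`; let `z j = g * h j - h o * v j` for `t j = 1` (`g = p - y o`), an integer.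
(a) For `t j = 1`: `∑_{t k = 1} s j k * h k = - h j`: by HEC (`f` supported on `t = 1`, `(F k : ℂ) = ∑ s k i f i` for `t k = 1`) it is `p F j - (p f j + (p - 1) F j)`.  The same for `v` (this is `h` for
`f = e_o`: `∑ i, s k i * [i = o] = y k`, `e_o` is invariant by `pi_o` and injectivity).  So `∑_{t k = 1} s j k * z k = - z j` for `t j = 1`, and `z o = 0` (`v o = g`).
(b) Descent: `z j = 0` for all `j` with `y j ≠ 0`, `t j = 1`.  Show by induction on `r` that `p ^ r ∣ z j` for all these `j`: write `z j = p ^ r * z' j` there; as `s j k = 0` for `y k = 0` (`sup`), dividing by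
`p ^ r`: `∑_{t k = 1, y k ≠ 0} s j k * z' k = - z' j`.  For `j = o`: `∑ y k * z' k = - z' o = 0`.  By `cg`, `Q (s j k - d j * y k)`, so `Q (- z' j - d j * ∑ y k z' k) = Q (- z' j)` and `p ∣ z' j` (`int_iff`).
An integer divisible by all `p ^ r` is `0`.  This is (1).
(c) (2): let `y j ≠ 0`, `t j ≠ 1`.  Multiply (1) for `k` (`y k ≠ 0`, `t k = 1`) by `s j k` and sum (terms with `y k = 0` vanish by `sup`): `g * ∑_{t k = 1} s j k * h k = h o * ∑_{t k = 1} s j k * v k`.  By HEC for `t j ≠ 1`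
(`f j = 0`): `∑_{t k = 1} s j k * F k = - F' j` with `F' j = ∑ i, s j i * f i`, so the left side is `g * (p F' j + F' j)`; similarly `∑_{t k = 1} s j k * v k = (p + 1) * y j`.  Divide by `p + 1`. -/
def StSTL : Prop := StHEC → ∀ (I : Type) [Fintype I] [DecidableEq I] (p : ℕ) (X : PD I p 1)
  (Q : ℂ → Prop), Blk X Q → ∀ f F : I → ℤ, (∀ c i, f (X.pi c i) = f i) →
  (∀ i, f i ≠ 0 → X.t i = 1) → (∀ k, X.t k = 1 → (F k : ℂ) = ∑ i, X.s k i * (f i : ℂ)) →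
  (∀ j, X.y j ≠ 0 → X.t j = 1 → ((p : ℤ) - X.y X.o) * (p * f j - F j) =
    (p * f X.o - F X.o) * ((if j = X.o then (p : ℤ) else 0) - X.y j)) ∧
  (∀ j, X.y j ≠ 0 → X.t j ≠ 1 → ((p : ℂ) - X.y X.o) * (∑ i, X.s j i * (f i : ℂ)) =
    ((p : ℂ) * f X.o - F X.o) * X.y j)

open Classical in
/-- **OS MODULE DRE.**  The dimensions in the principal block.
PROOF.  STL for `f = z`, `F = d` (`pi_z`, `z_t`, `sz`), `d o = 1`: with `E = p * z o - 1`, (1) for `j ≠ o`: `g * (p * z j - d j) = - E * y j`; (2) for `t j ≠ 1`: `g * d j = E * y j`.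
(3) For a unit `w`: `∑ k, t k ^ w.val * (y k * d k) = ∑ i, z i * ∑ k, t k ^ w.val * (s o k * s k i) = ∑ i, z i * p * s o (pi w⁻¹ i)` (`weil`, `t o = 1`, `t i = 1` if `z i ≠ 0`)
`= p * ∑ i, z i * s o i = p * d o = p`.  For `w = 0`: `∑ k, y k * d k = p ^ 2 * z o` (`sd`).  Sum over all residues: `p * ∑_{t k = 1} y k * d k = p ^ 2 * z o + (p - 1) * p`.
(4) `E ≠ 0`, else `d j = 0` for the `j` of MZZ (3) (`g ≠ 0`). -/
def StDRE : Prop := StSTL → StHEC → StMZZ → ∀ (I : Type) [Fintype I] [DecidableEq I] (p : ℕ)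
  (X : PD I p 1) (Q : ℂ → Prop), Blk X Q →
  (∀ j, X.y j ≠ 0 → X.t j = 1 → j ≠ X.o → ((p : ℤ) - X.y X.o) * X.d j =
    (p * X.z X.o - 1) * X.y j + ((p : ℤ) - X.y X.o) * (p * X.z j)) ∧
  (∀ j, X.y j ≠ 0 → X.t j ≠ 1 →
    ((p : ℤ) - X.y X.o) * X.d j = (p * X.z X.o - 1) * X.y j) ∧
  (∑ k, if X.t k = 1 then X.y k * (X.d k : ℤ) else 0) = p * X.z X.o + p - 1 ∧
  (p : ℤ) * X.z X.o - 1 ≠ 0

open Classical in
/-- the orbit of `k` under the torus -/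
noncomputable def Orb {I : Type} [Fintype I] [DecidableEq I] {p a : ℕ} (X : PD I p a) (k : I) :
    Finset I := Finset.univ.filter fun j => ∃ c, X.pi c k = j

/-- **OS MODULE TSU.**  Torus sums.
PROOF.  `f i = #{c | pi c k = i}` is invariant (`pi c' i`: `c ↦ c' c`), supported on `t = 1` (`pi_t`, `t k = 1`), and for every `j`, `F' j := ∑ i, s j i * f i = ∑_c s j (pi c k)` is integral and fixed by all automorphisms
(`gal`: `σ (s j (pi c k)) = s j (pi c' (pi c k))`, units commute), so it is an integer `F j` (RAT).  `f o = 0` (`pi c k = o` would give `k = o`), `F o = (p - 1) * y k` (`(ZMod (p^1))ˣ` has `p - 1` elements: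
`ZMod.card_units_eq_totient`).  STL: (1) for `j ≠ o`, `t j = 1`: `g * (p * f j - F j) = -((p-1) y k) * (- y j)`.  This is the first claim.  (2) for `t j ≠ 1`: `g * F' j = - (p - 1) * y k * y j`.
Let `E i = g * f i + (p - 1) * y k * [i = o]`.  Claim `∑ i, s j i * E i = p * E j` for all `j`: `y j = 0`: `s j i = s i j = 0` for `y i ≠ 0` (`sup`), and `E` is supported on `{y ≠ 0}` (`pi_y`), `E j = 0`.  `y j ≠ 0`, `t j ≠ 1`:
`g F' j + (p-1) y k y j = 0 = p E j`.  `t j = 1`, `j ≠ o`: `g F j + (p-1) y k y j = p g f j`.  `j = o`: `g (p-1) y k + (p-1) y k x = (p-1) y k p`.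
`tor`: for the `j` with `t j ≠ 1` of `ex`: `g * ∑_c chi j (pi c k) + (p - 1) * y k = 0` (`chi j o = 1`).  Each `i ∈ Orb k` equals `pi c k` for exactly `N = #{c | pi c k = k}` units `c` (`c ↦ c0 c`), so
`p - 1 = N * |Orb k|` and `∑_c chi j (pi c k) = N * ∑_{i ∈ Orb k} chi j i`.  So `g * ∑_{i ∈ Orb k} chi j i = - |Orb k| * y k` (`N ≠ 0`); the sum is integral and rational (`g ≠ 0`), an integer (RAT); so `g ∣ |Orb k| * y k`. -/
def StTSU : Prop := StSTL → StHEC → StMZZ → StRAT → ∀ (I : Type) [Fintype I] [DecidableEq I] (p : ℕ)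
  [NeZero p] (X : PD I p 1) (Q : ℂ → Prop), Blk X Q → ∀ k, X.y k ≠ 0 → X.t k = 1 → k ≠ X.o →
  (∀ j, X.y j ≠ 0 → X.t j = 1 → j ≠ X.o → ((p : ℂ) - X.y X.o) *
    ((p : ℂ) * ((Finset.univ.filter fun c => X.pi c k = j).card : ℂ) - ∑ c, X.s j (X.pi c k)) =
    ((p : ℂ) - 1) * (X.y k * X.y j)) ∧
  ((p : ℤ) - X.y X.o) ∣ ((Orb X k).card : ℤ) * X.y k

open Classical in
/-- **OS MODULE MUK.**
PROOF.  (a) `∑_{t j = 1} |s k j|^2 = p + ∑_c s k (pi c k)`: `|s k j|^2 = s k j * s k (pi (-1) j)`(`conj_s`) `= s k j * s j k'` with `k' = pi (-1) k` (`pi_s`, `s_symm`), `t k' = 1`.  `p` times the left side is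
`∑_w ∑ j, t j ^ w.val * (s k j * s j k')`; `w = 0`: `∑ j, |s k j|^2 = p ^ 2`; unit `w`: `weil`: `p * s k (pi w⁻¹ k')` (`t k = t k' = 1`), and `w ↦ w⁻¹ * (-1)` is a bijection of the units.
(b) `N = #{c | pi c k = k}`, `p - 1 = N * g` (as `|Orb k| = g`, see TSU).  TSU with `j = k`, `y k ^ 2 = 1`: `g * (p N - ∑_c s k (pi c k)) = p - 1 = N g`, so `∑_c s k (pi c k) = (p - 1) N`, and it is `N * ∑_{i ∈ Orb k} s k i`.  So
`∑_{i ∈ Orb k} s k i = p - 1`, `∑_{i ∈ Orb k} |s k i|^2 ≥ (p-1)^2 / g = (p - 1) N` (Cauchy).  (a): `∑_{t j = 1} |s k j|^2 = p + (p-1) N`.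
(c) All `i ∈ Orb k` have `t i = 1`, so `∑_{t j = 1, j ∉ Orb k} |s k j|^2 ≤ p`, and AMG for `S = {j | y j ≠ 0, t j = 1, j ∉ Orb k}` (stable under the torus) gives `|S| ≤ p`. -/
def StMUK : Prop := StTSU → StAMG → StSTL → StHEC → StMZZ → StRAT → ∀ (I : Type) [Fintype I]
  [DecidableEq I] (p : ℕ) [NeZero p] (X : PD I p 1) (Q : ℂ → Prop), Blk X Q →
  ∀ k, X.y k ≠ 0 → X.t k = 1 → k ≠ X.o → X.y k ^ 2 = 1 →
  ((Orb X k).card : ℤ) = (p : ℤ) - X.y X.o →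
  (Finset.univ.filter fun j => X.y j ≠ 0 ∧ X.t j = 1 ∧ j ∉ Orb X k).card ≤ p

/-- Combinatorial data in the case `a = 1`: `K` is `{k | y k ≠ 0, t k = 1, k ≠ o}`. -/
structure CD (I : Type) [DecidableEq I] (p : ℕ) where
  K : Finset I
  y : I → ℤ
  d : I → ℕ
  z : I → ℤ
  st : I → I
  O : I → Finset I
  g : ℤ
  D : ℤ
  g_ge : 2 ≤ g
  g_le : g ≤ p - 1
  g_even : Even g
  y_ne : ∀ k ∈ K, y k ≠ 0
  d_pos : ∀ k, 0 < d k
  sq : ∑ k ∈ K, y k ^ 2 = g * (p + 1 - g)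
  dim : ∑ k ∈ K, y k * (d k : ℤ) = g * (D + 1)
  rel : ∀ k ∈ K, (d k : ℤ) = D * y k + p * z k
  dvd : ∀ k ∈ K, (d k : ℤ) ∣ D
  big : ∀ c : ℤ, c ∣ D → 1 < c → (p : ℤ) < c
  pD : ¬ (p : ℤ) ∣ D
  O_K : ∀ k ∈ K, O k ⊆ K
  O_self : ∀ k ∈ K, k ∈ O k
  O_y : ∀ k ∈ K, ∀ j ∈ O k, y j = y k ∧ d j = d k
  O_eq : ∀ k ∈ K, ∀ j ∈ O k, O j = O k
  O_g : ∀ k ∈ K, g ∣ ((O k).card : ℤ) * y k
  st_K : ∀ k ∈ K, st k ∈ K
  st_st : ∀ k, st (st k) = k
  st_ne : ∀ k ∈ K, st k ≠ k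
  st_y : ∀ k, y (st k) = y k ∧ d (st k) = d k
  muk : ∀ k ∈ K, y k ^ 2 = 1 → ((O k).card : ℤ) = g → (K \ O k).card + 1 ≤ p

/-- **OS MODULE CMB.**  The combinatorial part.
PROOF.  `D ≠ 0` (`pD`), `A = |D|`, `D = e A`, `e = ± 1`.  `K` is not empty (`sq`, `g (p + 1 - g) > 0`).
(0) If `A = 1` then `d k ∣ D` gives `d k = 1` for every `k ∈ K`.  Let `A > 1`; then `A > p` (`big`).  For `k ∈ K`: `A = a_k * d k`, `a_k ≥ 1` divides `D`, so `a_k = 1` or `a_k ≥ p + 1`.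
`Big = {k ∈ K | d k = A}`, `Sm = K \ Big`.
(1) `y k = e` for `k ∈ Big`: `rel`: `A = e A y k + p z k`, so `p ∣ 1 - e y k` (`p` prime to `A`: use `pD` and `rel`; `A (1 - e y k) = p z k`; `p` is prime: `p = 3` or `5`), i.e. `p ∣ y k - e`.  `2 (y k)^2 ≤ ∑_K y^2 = g (p+1-g)` as `k` and
`st k ≠ k` are both in `K`.  If `y k ≠ e` then `|y k| ≥ p - 1`, `2 (p-1)^2 ≤ g (p + 1 - g)`: impossible for `p = 3` (`g = 2`: `8 ≤ 4`) and `p = 5` (`g = 2, 4`: `32 ≤ 8`).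
(2) `g ∣ |Big|`: the orbit `O k` of `k ∈ Big` lies in `Big` (`O_y`, `O_K`), `g ∣ |O k| * e`; `Big` is the disjoint union of its orbits (`O_eq`, `O_self`): `|Big| = ∑_{T ∈ Big.image O} |T|`
(`Finset.card_eq_sum_card_fiberwise` with the map `O`; the fibre of `T = O k` in `Big` is `T`).
(3) `|Big| = g`: `g (D + 1) = D |Big| + ∑_Sm y k d k` (`e A = D`).  `|∑_Sm y k d k| ≤ ∑_Sm |y k| A / (p+1) ≤ (A / (p+1)) ∑_K y^2 = A g (p + 1 - g)/(p+1)`; so `A * |g - |Big|| * (p + 1) ≤ A g (p + 1 - g) + g (p + 1)`.  If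
`|Big| ≠ g` then `|g - |Big|| ≥ g` by (2), so `A g (p+1) ≤ A g (p+1-g) + g (p+1)`, `A g ≤ p + 1`, `2 A ≤ p + 1`, false as `A > p`.
(4) So `∑_Sm y k d k = g`, `∑_Sm y^2 = g (p + 1 - g) - g = g (p - g)`, and for `k0 ∈ Big`: `O k0 ⊆ Big`, `g ∣ |O k0|`, so `O k0 = Big`, `|O k0| = g`.
(5) Case `g = p - 1` (`p = 3`, `g = 2`; `p = 5`, `g = 4`): `∑_Sm y^2 = g > 0`; take `k ∈ Sm`; `O k ⊆ Sm` (`O_y`).  `g ≤ |O k| |y k|` (nonzero multiple of `g`), `|O k| (y k)^2 ≤ ∑_Sm y^2 = g`.  So `|y k| = 1`, `|O k| = g`, and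
`Sm = O k` (other elements would contribute to `∑_Sm y^2`).  `g = ∑_Sm y j d j = g y k d k`, so `y k d k = 1`, `d k = 1`.
(6) Case `p = 5`, `g = 2` (`g = 3` is not even): `muk` for `k0`: `|Sm| + 1 ≤ 5`.  `∑_Sm y^2 = 6`.  `|Sm|` is even (`st` is a fixed point free involution of `Sm`: `Finset.card_involution`-like, or `Finset.even_card..`).
`|Sm| = 0`: the sum is `0`.  `|Sm| = 2` or `4`: `∑_Sm (y^2 - 1) = 4` or `2`, but every `y^2 - 1` is `0`, `3` or `≥ 8`: impossible. -/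
def StCMB : Prop := ∀ (I : Type) [DecidableEq I] (p : ℕ) (C : CD I p), p = 3 ∨ p = 5 →
  ∃ k ∈ C.K, C.d k = 1

open Classical in
/-- **OS MODULE CDX.**  The combinatorial data of `X`.
PROOF.  `K = {k | y k ≠ 0, t k = 1, k ≠ o}`, `O = Orb X`, `g = p - y o`.  MZZ: `g_ge`, `g_le`, `g_even`, and `sq`: `∑_K y^2 = p + (p-1) x - x^2 = g (p + 1 - g)`.
`O_K`, `O_self`, `O_y`, `O_eq` from the fields `pi_*` (`pi_t`: `t (pi c k) = 1`; `pi c k ≠ o`), `O_g` = TSU (2).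
`D`: by DRE (3) `∑_K y k d k = E + p - x = E + g`, `E = p * z o - 1`.  `g ∣ ∑_K y k d k`: group by orbits (`∑_{j ∈ O k} y j d j = |O k| y k d k`, divisible by `g`; `Finset.sum_fiberwise` / `Finset.dvd_sum` over
`K.image O`).  So `E = g D`; `dim`.  `rel`: DRE (1) divided by `g`.  `pD`: `p ∣ D` would give `p ∣ E = p z o - 1`.
By DRE (2) for the `j` of MZZ (3): `d j = D * y j`, so `D ∣ d j ∣ p m`.  `big`: let `c ∣ D`, `1 < c`, `q` a prime dividing `c`: `q ∣ p m`, `q ≠ p` (`pD`), so `q ∣ m`, `p < q ≤ c`.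
`dvd`: `d k ∣ p z k` (`z_dvd`), `p ∤ d k` (`d_nd`), so `d k ∣ z k`, `d k ∣ D y k`.  `d k` and `y k` are coprime: a common prime `q` divides `p m`, `q ≠ p`, so `q ∣ m`, `q > p`, `|y k| ≥ q > p`, but
`(y k)^2 ≤ g (p + 1 - g) < p^2`.  So `d k ∣ D`.
`st`: `y_st`, `t_st`, `d_st`, `st_st`, `nsd`, `st_o`.  `muk`: MUK; `{j | y j ≠ 0, t j = 1, j ∉ Orb k} = (K \ O k) ∪ {o}` (`o ∉ Orb k`). -/
def StCDX : Prop := StMZZ → StDRE → StTSU → StMUK → StSTL → StHEC → StAMG → StRAT →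
  ∀ (I : Type) [Fintype I] [DecidableEq I] (p : ℕ) (X : PD I p 1) (Q : ℂ → Prop), Blk X Q →
  (∀ q : ℕ, q.Prime → q ∣ X.m → p < q) →
  ∃ C : CD I p, C.d = X.d ∧ C.K = Finset.univ.filter fun k => X.y k ≠ 0 ∧ X.t k = 1 ∧ k ≠ X.o

end Pool.Agent.Helper89.OS
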